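import Pool.Agent.Helper60.HB.Skel

set_option autoImplicit false

open NumberField Polynomial

namespace Pool.Agent.Helper52.HB

open Pool.Agent.Helper60.HB

/-- the polynomial -/
noncomputable def fz (x y : ℤ) : ℤ[X] := X ^ 3 - C (3 * x) * X + C (2 * y)

theorem fz_eval₂ {S : Type} [CommRing S] (i : ℤ →+* S) (x y : ℤ) (t : S) :
    (fz x y).eval₂ i t = t ^ 3 - 3 * x * t + 2 * y := by
  simp only [fz, eval₂_add, eval₂_sub, eval₂_mul, eval₂_pow, eval₂_X, eval₂_C]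
  rw [eq_intCast i, eq_intCast i]
  push_cast
  rfl

theorem fz_deg (x y : ℤ) : (fz x y).natDegree = 3 := by
  unfold fz
  compute_degree!

theorem fz_monic (x y : ℤ) : (fz x y).Monic := by
  unfold fz
  monicity!

/-- the polynomial over the rationals -/
noncomputable def fq (x y : ℤ) : ℚ[X] := (fz x y).map (Int.castRingHom ℚ)

theorem fq_irr (x y : ℤ) (h : ∀ r : ℤ, r ^ 3 - 3 * x * r + 2 * y ≠ 0) : Irreducible (fq x y) := by
  have hm : (fq x y).Monic := (fz_monic x y).map _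
  have hd : (fq x y).natDegree = 3 := by
    unfold fq
    rw [(fz_monic x y).natDegree_map, fz_deg]
  rw [hm.irreducible_iff_roots_eq_zero_of_degree_le_three (by omega) (by omega)]
  rw [Multiset.eq_zero_iff_forall_notMem]
  intro q hq
  have hq' : (fq x y).eval q = 0 := (mem_roots'.mp hq).2
  have h1 : aeval q (fz x y) = 0 := by
    rw [aeval_def, ← hq']
    unfold fq
    rw [eval_map]
    rfl
  obtain ⟨r, hr⟩ := isInteger_of_is_root_of_monic (fz_monic x y) h1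
  apply h r
  have h2 : (fz x y).eval₂ (Int.castRingHom ℚ) q = 0 := h1
  rw [fz_eval₂, ← hr] at h2
  simp only [algebraMap_int_eq, eq_intCast] at h2
  exact_mod_cast h2

theorem exK (x y : ℤ) (h : ∀ r : ℤ, r ^ 3 - 3 * x * r + 2 * y ≠ 0) :
    ∃ (K : Type) (_ : Field K) (_ : NumberField K) (θ : K), Module.finrank ℚ K = 3 ∧
      θ ^ 3 - 3 * x * θ + 2 * y = 0 ∧
      ∀ t : ℂ, t ^ 3 - 3 * x * t + 2 * y = 0 → ∃ s : K →+* ℂ, s θ = t := by
  have hirr := fq_irr x y h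
  have : Fact (Irreducible (fq x y)) := ⟨hirr⟩
  have hm : (fq x y).Monic := (fz_monic x y).map _
  have hd : (fq x y).natDegree = 3 := by
    unfold fq
    rw [(fz_monic x y).natDegree_map, fz_deg]
  have hfin : Module.Finite ℚ (AdjoinRoot (fq x y)) := hm.finite_adjoinRoot
  have : CharZero (AdjoinRoot (fq x y)) :=
    charZero_of_injective_algebraMap (algebraMap ℚ (AdjoinRoot (fq x y))).injective
  have hNF : NumberField (AdjoinRoot (fq x y)) :=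
    { to_charZero := inferInstance
      to_finiteDimensional := hfin }
  refine ⟨AdjoinRoot (fq x y), inferInstance, hNF, AdjoinRoot.root (fq x y), ?_, ?_, ?_⟩
  · have h1 := (AdjoinRoot.powerBasis hm.ne_zero).finrank
    rw [AdjoinRoot.powerBasis_dim, hd] at h1
    exact h1
  · have h1 := AdjoinRoot.eval₂_root (fq x y)
    unfold fq at h1
    rw [eval₂_map, fz_eval₂] at h1
    exact h1
  · intro t ht
    have h1 : (fq x y).eval₂ (algebraMap ℚ ℂ) t = 0 := by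
      unfold fq
      rw [eval₂_map, fz_eval₂]
      exact ht
    exact ⟨AdjoinRoot.lift (algebraMap ℚ ℂ) t h1, AdjoinRoot.lift_root h1⟩

theorem vieta (x y : ℂ) (t1 t2 t3 : ℂ)
    (h : ∀ X : ℂ, X ^ 3 - 3 * x * X + 2 * y = (X - t1) * (X - t2) * (X - t3)) :
    t1 + t2 + t3 = 0 ∧ t1 * t2 + t1 * t3 + t2 * t3 = -3 * x := by
  have h0 := h 0
  have h1 := h 1
  have h2 := h (-1)
  constructor
  · linear_combination (1 / 2) * h1 + (1 / 2) * h2 - h0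
  · linear_combination (1 / 2) * h2 - (1 / 2) * h1

theorem st_CUB (hROOT : ST_ROOT) (hDISC : ST_DISC) : ST_CUB := by
  classical
  intro x y hx hxy hirr
  obtain ⟨t1, t2, t3, hf, h12, h13, h23, hdisc, hclose, hbd⟩ := hROOT x y hx hxy
  obtain ⟨K, iF, iN, θ, hfr, hθ, hs⟩ := exK x y hirr
  obtain ⟨s1, hs1⟩ := hs t1 (by rw [hf]; ring)
  obtain ⟨s2, hs2⟩ := hs t2 (by rw [hf]; ring)
  obtain ⟨s3, hs3⟩ := hs t3 (by rw [hf]; ring)
  obtain ⟨he1, he2⟩ := vieta x y t1 t2 t3 hf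
  have hint : IsIntegral ℤ θ := by
    refine ⟨fz x y, fz_monic x y, ?_⟩
    rw [fz_eval₂]
    exact hθ
  let θO : 𝓞 K := ⟨θ, hint⟩
  have hθO : (θO : K) = θ := rfl
  let γ : 𝓞 K := 3 * θO ^ 2 - 3 * (x : 𝓞 K)
  have hγ : (γ : K) = 3 * θ ^ 2 - 3 * x := by
    change algebraMap (𝓞 K) K (3 * θO ^ 2 - 3 * (x : 𝓞 K)) = _
    rw [map_sub, map_mul, map_mul, map_pow, map_intCast, map_ofNat]
    rfl
  have hγs : ∀ s : K →+* ℂ, s (γ : K) = 3 * (s θ) ^ 2 - 3 * x := by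
    intro s
    rw [hγ, map_sub, map_mul, map_mul, map_pow, map_intCast, map_ofNat]
  have g1 : s1 (γ : K) = (t1 - t2) * (t1 - t3) := by
    rw [hγs, hs1]
    linear_combination (2 * t1) * he1 - he2
  have g2 : s2 (γ : K) = (t2 - t1) * (t2 - t3) := by
    rw [hγs, hs2]
    linear_combination (2 * t2) * he1 - he2
  have g3 : s3 (γ : K) = (t3 - t1) * (t3 - t2) := by
    rw [hγs, hs3]
    linear_combination (2 * t3) * he1 - he2
  -- differences
  have d12 : t1 - t2 ≠ 0 := sub_ne_zero.mpr h12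
  have d13 : t1 - t3 ≠ 0 := sub_ne_zero.mpr h13
  have d23 : t2 - t3 ≠ 0 := sub_ne_zero.mpr h23
  have d21 : t2 - t1 ≠ 0 := sub_ne_zero.mpr h12.symm
  have d31 : t3 - t1 ≠ 0 := sub_ne_zero.mpr h13.symm
  have d32 : t3 - t2 ≠ 0 := sub_ne_zero.mpr h23.symm
  have hγ0 : γ ≠ 0 := by
    intro h
    rw [h] at g1
    have h0 : s1 ((0 : 𝓞 K) : K) = 0 := by
      rw [show ((0 : 𝓞 K) : K) = 0 from map_zero (algebraMap (𝓞 K) K), map_zero]
    rw [h0] at g1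
    exact mul_ne_zero d12 d13 g1.symm
  -- all embeddings
  have hall : ∀ s : K →+* ℂ, s = s1 ∨ s = s2 ∨ s = s3 := by
    intro s
    have hcard : Fintype.card (K →+* ℂ) = 3 := by
      rw [NumberField.Embeddings.card, hfr]
    have h12' : s1 ≠ s2 := fun h => h12 (by rw [← hs1, ← hs2, h])
    have h13' : s1 ≠ s3 := fun h => h13 (by rw [← hs1, ← hs3, h])
    have h23' : s2 ≠ s3 := fun h => h23 (by rw [← hs2, ← hs3, h])
    have h3 : ({s1, s2, s3} : Finset (K →+* ℂ)).card = 3 := by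
      rw [Finset.card_insert_of_notMem, Finset.card_insert_of_notMem, Finset.card_singleton]
      · simpa using h23'
      · simp only [Finset.mem_insert, Finset.mem_singleton, not_or]
        exact ⟨h12', h13'⟩
    have hu : ({s1, s2, s3} : Finset (K →+* ℂ)) = Finset.univ := by
      apply Finset.eq_univ_of_card
      rw [h3, hcard]
    have hm := Finset.mem_univ s
    rw [← hu] at hm
    simpa using hm
  have hnorm : ((Algebra.norm ℤ γ : ℤ) : ℂ) = s1 (γ : K) * s2 (γ : K) * s3 (γ : K) := by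
    have h1 : ((Algebra.norm ℤ γ : ℤ) : ℂ) = algebraMap ℚ ℂ (Algebra.norm ℚ (γ : K)) := by
      rw [← Algebra.coe_norm_int]
      simp
    rw [h1, Algebra.norm_eq_prod_embeddings ℚ ℂ (γ : K),
      ← Fintype.prod_equiv (RingHom.equivRatAlgHom K ℂ) (fun f => f (γ : K))
      (fun φ => φ (γ : K)) fun _ => by simp [RingHom.equivRatAlgHom_apply]]
    have h12' : s1 ≠ s2 := fun h => h12 (by rw [← hs1, ← hs2, h])
    have h13' : s1 ≠ s3 := fun h => h13 (by rw [← hs1, ← hs3, h])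
    have h23' : s2 ≠ s3 := fun h => h23 (by rw [← hs2, ← hs3, h])
    have hu : (Finset.univ : Finset (K →+* ℂ)) = {s1, s2, s3} := by
      ext s
      simpa using hall s
    rw [hu, Finset.prod_insert, Finset.prod_insert, Finset.prod_singleton, mul_assoc]
    · simpa using h23'
    · simp only [Finset.mem_insert, Finset.mem_singleton, not_or]
      exact ⟨h12', h13'⟩
  have hprod : s1 (γ : K) * s2 (γ : K) * s3 (γ : K) =
      -((t1 - t2) * (t1 - t3) * (t2 - t3)) ^ 2 := by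
    rw [g1, g2, g3]
    ring
  have hD : ‖(t1 - t2) * (t1 - t3) * (t2 - t3)‖ ^ 2 = 108 * |((y ^ 2 - x ^ 3 : ℤ) : ℝ)| := by
    rw [← norm_pow, hdisc, Complex.norm_intCast]
    push_cast
    rw [abs_mul, abs_neg]
    norm_num
  have hnn : (((Algebra.norm ℤ γ).natAbs : ℕ) : ℝ) = 108 * |((y ^ 2 - x ^ 3 : ℤ) : ℝ)| := by
    rw [Nat.cast_natAbs, Int.cast_abs, ← hD, ← Complex.norm_intCast, hnorm, hprod, norm_neg,
      norm_pow]
  have hd1 : (1 : ℝ) ≤ |((y ^ 2 - x ^ 3 : ℤ) : ℝ)| := by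
    rw [← Int.cast_abs]
    exact_mod_cast Int.one_le_abs (sub_ne_zero.mpr hxy)
  have hx1 : (1 : ℝ) ≤ (x : ℝ) := by exact_mod_cast hx
  obtain ⟨Z, hZ⟩ : ∃ Z : ℝ, Z = (x : ℝ) + |((y ^ 2 - x ^ 3 : ℤ) : ℝ)| + 2 := ⟨_, rfl⟩
  have hZ4 : 4 ≤ Z := by rw [hZ]; linarith
  have hxZ : (x : ℝ) ≤ Z := by rw [hZ]; linarith
  have hdZ : |((y ^ 2 - x ^ 3 : ℤ) : ℝ)| ≤ Z := by rw [hZ]; linarith
  have hZ3 : Z ≤ Z ^ 3 := by
    have : (1 : ℝ) ≤ Z ^ 2 := by nlinarith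
    nlinarith
  have hy : |(y : ℝ)| ≤ Z ^ 2 := by
    apply abs_le_of_sq_le_sq _ (by positivity)
    have h1 : (y : ℝ) ^ 2 = (x : ℝ) ^ 3 + ((y ^ 2 - x ^ 3 : ℤ) : ℝ) := by
      push_cast
      ring
    have h2 : ((y ^ 2 - x ^ 3 : ℤ) : ℝ) ≤ Z := le_trans (le_abs_self _) hdZ
    have h3 : (x : ℝ) ^ 3 ≤ Z ^ 3 := pow_le_pow_left₀ (by linarith) hxZ 3
    have h4 : (Z ^ 2) ^ 2 = Z * Z ^ 3 := by ring
    have h5 : 4 * Z ^ 3 ≤ Z * Z ^ 3 := mul_le_mul_of_nonneg_right hZ4 (by positivity)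
    rw [h1, h4]
    have h6 : 0 ≤ Z ^ 3 := by positivity
    linarith
  have ht : ∀ t : ℂ, (t = t1 ∨ t = t2 ∨ t = t3) → ‖t‖ ≤ 4 * Z ^ 2 := by
    intro t h
    have h1 := hbd t h
    nlinarith
  have hdiff : ∀ u v : ℂ, (u = t1 ∨ u = t2 ∨ u = t3) → (v = t1 ∨ v = t2 ∨ v = t3) →
      ‖u - v‖ ≤ 8 * Z ^ 2 := by
    intro u v hu hv
    have h1 := norm_sub_le u v
    have h2 := ht u hu
    have h3 := ht v hv
    linarith
  have hpr : ∀ a b : ℂ, ‖a‖ ≤ 8 * Z ^ 2 → ‖b‖ ≤ 8 * Z ^ 2 → ‖a * b‖ ≤ Z ^ 7 := by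
    intro a b ha hb
    rw [norm_mul]
    have h1 : ‖a‖ * ‖b‖ ≤ (8 * Z ^ 2) * (8 * Z ^ 2) :=
      mul_le_mul ha hb (norm_nonneg _) (by positivity)
    have h2 : (4 : ℝ) ^ 3 ≤ Z ^ 3 := pow_le_pow_left₀ (by norm_num) hZ4 3
    have h3 : (4 : ℝ) ^ 3 * Z ^ 4 ≤ Z ^ 3 * Z ^ 4 :=
      mul_le_mul_of_nonneg_right h2 (by positivity)
    have h4 : Z ^ 7 = Z ^ 3 * Z ^ 4 := by ring
    rw [h4]
    calc ‖a‖ * ‖b‖ ≤ (8 * Z ^ 2) * (8 * Z ^ 2) := h1
      _ = (4 : ℝ) ^ 3 * Z ^ 4 := by ring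
      _ ≤ Z ^ 3 * Z ^ 4 := h3
  have u1 : ‖s1 (γ : K)‖ ≤ Z ^ 7 := by
    rw [g1]
    exact hpr _ _ (hdiff _ _ (by simp) (by simp)) (hdiff _ _ (by simp) (by simp))
  have u2 : ‖s2 (γ : K)‖ ≤ Z ^ 7 := by
    rw [g2]
    exact hpr _ _ (hdiff _ _ (by simp) (by simp)) (hdiff _ _ (by simp) (by simp))
  have u3 : ‖s3 (γ : K)‖ ≤ Z ^ 7 := by
    rw [g3]
    exact hpr _ _ (hdiff _ _ (by simp) (by simp)) (hdiff _ _ (by simp) (by simp))
  have hge : (1 : ℝ) ≤ ‖s1 (γ : K)‖ * ‖s2 (γ : K)‖ * ‖s3 (γ : K)‖ := by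
    rw [← norm_mul, ← norm_mul, hprod, norm_neg, norm_pow, hD]
    linarith
  have hZ7 : 0 < Z ^ 7 := by positivity
  have low : ∀ a b c : ℝ, 0 ≤ a → 0 ≤ b → 0 ≤ c → b ≤ Z ^ 7 → c ≤ Z ^ 7 → 1 ≤ a * b * c →
      1 ≤ a * (Z ^ 7 * Z ^ 7) := by
    intro a b c ha hb hc hb' hc' h
    have h1 : b * c ≤ Z ^ 7 * Z ^ 7 := mul_le_mul hb' hc' hc hZ7.le
    have h2 : a * (b * c) ≤ a * (Z ^ 7 * Z ^ 7) := mul_le_mul_of_nonneg_left h1 ha
    linarith
  have hbnd : ∀ s : K →+* ℂ, ‖s (γ : K)‖ ≤ Z ^ 7 ∧ 1 ≤ ‖s (γ : K)‖ * (Z ^ 7 * Z ^ 7) := by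
    intro s
    rcases hall s with rfl | rfl | rfl
    · exact ⟨u1, low _ _ _ (norm_nonneg _) (norm_nonneg _) (norm_nonneg _) u2 u3 hge⟩
    · exact ⟨u2, low _ _ _ (norm_nonneg _) (norm_nonneg _) (norm_nonneg _) u1 u3
        (by rw [mul_comm ‖s (γ : K)‖]; exact hge)⟩
    · exact ⟨u3, low _ _ _ (norm_nonneg _) (norm_nonneg _) (norm_nonneg _) u1 u2
        (by rw [mul_assoc, mul_comm ‖s (γ : K)‖]; exact hge)⟩
  refine ⟨K, iF, iN, γ, s1, s2, s3, hfr, hγ0, ?_, ?_, ?_, hnn.le, ?_⟩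
  · rw [g1, g2, g3]
    field_simp
    ring
  · rw [g1, g2, norm_mul, norm_mul, norm_sub_rev t2 t1]
    have h1 := mul_le_mul_of_nonneg_left hclose (norm_nonneg (t1 - t2))
    calc ‖t1 - t2‖ * ‖t2 - t3‖ * (x : ℝ) ^ (3 / 2 : ℝ)
        = ‖t1 - t2‖ * (‖t2 - t3‖ * (x : ℝ) ^ (3 / 2 : ℝ)) := by ring
      _ ≤ ‖t1 - t2‖ * (6 * Real.sqrt |((y ^ 2 - x ^ 3 : ℤ) : ℝ)| * ‖t1 - t3‖) := h1
      _ = 6 * Real.sqrt |((y ^ 2 - x ^ 3 : ℤ) : ℝ)| * (‖t1 - t2‖ * ‖t1 - t3‖) := by ring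
  · have h1 := hDISC K hfr θO s1 s2 s3 (by rw [hθO, hs1, hs2]; exact h12)
      (by rw [hθO, hs1, hs3]; exact h13) (by rw [hθO, hs2, hs3]; exact h23)
    rw [hθO, hs1, hs2, hs3, hD] at h1
    exact h1
  · intro w
    obtain ⟨h1, h2⟩ := hbnd w.embedding
    rw [InfinitePlace.norm_embedding_eq] at h1 h2
    rw [← hZ]
    have hw : 0 < w (γ : K) := by
      by_contra h
      have h3 : w (γ : K) * (Z ^ 7 * Z ^ 7) ≤ 0 :=
        mul_nonpos_of_nonpos_of_nonneg (not_lt.mp h) (by positivity)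
      linarith
    have hlZ : 0 ≤ Real.log Z := Real.log_nonneg (by linarith)
    have h3 : Real.log (w (γ : K)) ≤ 7 * Real.log Z := by
      have := Real.log_le_log hw h1
      rw [Real.log_pow] at this
      exact_mod_cast this
    have h4 : 0 ≤ Real.log (w (γ : K)) + 14 * Real.log Z := by
      have h5 := Real.log_nonneg h2
      rw [Real.log_mul hw.ne' (by positivity), Real.log_mul (by positivity) (by positivity),
        Real.log_pow] at h5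
      push_cast at h5
      linarith
    rw [abs_le]
    constructor <;> linarith

end Pool.Agent.Helper52.HB
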