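import Pool.Agent.Helper60.HB.Skel

set_option autoImplicit false

open Polynomial

namespace Pool.Agent.Helper52.HB

open Pool.Agent.Helper60.HB

theorem norm_prod_le (M : ℝ) (hM : 1 ≤ M) (s : Multiset ℂ) (h : ∀ z ∈ s, ‖z‖ ≤ M) :
    ‖s.prod‖ ≤ M ^ Multiset.card s := by
  induction s using Multiset.induction with
  | empty => simp
  | cons a s ih =>
    rw [Multiset.prod_cons, Multiset.card_cons, pow_succ', norm_mul]
    exact mul_le_mul (h a (Multiset.mem_cons_self a s))
      (ih fun z hz => h z (Multiset.mem_cons_of_mem hz)) (norm_nonneg _) (by linarith)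

theorem st_LIOU : ST_LIOU := by
  classical
  intro y D M hy hy0 hD hdeg hM hroots
  have hmin : minpoly ℚ y = (minpoly ℤ y).map (algebraMap ℤ ℚ) :=
    minpoly.isIntegrallyClosed_eq_field_fractions' ℚ hy
  have hyQ : IsIntegral ℚ y := hy.tower_top
  obtain ⟨q, hq⟩ : ∃ q : ℂ[X], q = (minpoly ℚ y).map (algebraMap ℚ ℂ) := ⟨_, rfl⟩
  have hqm : q.Monic := by rw [hq]; exact (minpoly.monic hyQ).map _
  have hsp : q.Splits := IsAlgClosed.splits q
  have hqdeg : q.natDegree = (minpoly ℚ y).natDegree := by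
    rw [hq, natDegree_map]
  have hcard : Multiset.card q.roots = q.natDegree := hsp.natDegree_eq_card_roots.symm
  have hc0 : ‖q.coeff 0‖ = ‖q.roots.prod‖ := by
    rw [hsp.coeff_zero_eq_prod_roots_of_monic hqm, norm_mul, norm_pow, norm_neg, norm_one,
      one_pow, one_mul]
  have hge : 1 ≤ ‖q.coeff 0‖ := by
    have h1 : q.coeff 0 = (((minpoly ℤ y).coeff 0 : ℤ) : ℂ) := by
      rw [hq, hmin, Polynomial.map_map, coeff_map]
      simp
    have h2 : (minpoly ℤ y).coeff 0 ≠ 0 := by
      intro h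
      apply minpoly.coeff_zero_ne_zero hyQ hy0
      rw [hmin, coeff_map, h, map_zero]
    rw [h1, Complex.norm_intCast]
    exact_mod_cast Int.one_le_abs h2
  have hmem : ∀ z ∈ q.roots, ‖z‖ ≤ M := by
    intro z hz
    apply hroots
    have h1 := (mem_roots'.mp hz).2
    rw [IsRoot.def, hq, eval_map] at h1
    exact h1
  have hyr : y ∈ q.roots := by
    rw [mem_roots hqm.ne_zero, IsRoot.def, hq, eval_map]
    exact minpoly.aeval ℚ y
  have hsplit : q.roots = y ::ₘ q.roots.erase y := (Multiset.cons_erase hyr).symm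
  have hce : Multiset.card (q.roots.erase y) ≤ D - 1 := by
    have h1 := Multiset.card_erase_of_mem hyr
    rw [h1, hcard, hqdeg]
    have : (minpoly ℚ y).natDegree - 1 ≤ D - 1 := by omega
    exact this
  have hprod : ‖q.roots.prod‖ ≤ ‖y‖ * M ^ (D - 1) := by
    rw [hsplit, Multiset.prod_cons, norm_mul]
    apply mul_le_mul_of_nonneg_left _ (norm_nonneg _)
    exact le_trans (norm_prod_le M hM _ fun z hz => hmem z (Multiset.mem_of_mem_erase hz))
      (pow_le_pow_right₀ hM hce)
  rw [hc0] at hge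
  exact le_trans hge hprod

end Pool.Agent.Helper52.HB
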